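import Pool.Agent.H992.PM.JDefs

/-!
# The joint converse: convergence gives the upper bound
-/

set_option autoImplicit false
open MeasureTheory Filter Topology Complex ProbabilityTheory
open scoped ContDiff ENNReal

namespace Pool.Agent.H287.JM

open Pool.Agent.N661.BR (MW IsRandomWave meas_eval)
open Pool.Agent.H992.PM (jpMean JPBound S_GM S_JV)

theorem memLp_eval (hg : S_GM) {γ : Measure MW} (hγp : IsProbabilityMeasure γ)
    (hγ : IsRandomWave γ) (w : ℂ) {q : ℕ} (hq : 1 ≤ q) :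
    MemLp (fun f : MW => f w) (q : ℝ≥0∞) γ := by
  have hm : AEStronglyMeasurable (fun f : MW => f w) γ := (meas_eval w).aestronglyMeasurable
  have hq0 : (q : ℝ≥0∞) ≠ 0 := by
    have : q ≠ 0 := by omega
    exact_mod_cast this
  rw [← integrable_norm_rpow_iff hm hq0 (ENNReal.natCast_ne_top q)]
  refine ((hg γ hγp hγ).1 w q).congr (Eventually.of_forall fun f => ?_)
  simp [Real.norm_eq_abs]

theorem memLp_jeval (hg : S_GM) {γ : Measure MW} (hγp : IsProbabilityMeasure γ)
    (hγ : IsRandomWave γ) {d : ℕ} (i : Fin d) (w : ℂ) {q : ℕ} (hq : 1 ≤ q) :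
    MemLp (fun F : Fin d → MW => F i w) (q : ℝ≥0∞) (Measure.pi fun _ : Fin d => γ) :=
  (memLp_eval hg hγp hγ w hq).comp_measurePreserving
    (measurePreserving_eval (fun _ : Fin d => γ) i)

theorem memLp_jpoly (hg : S_GM) {γ : Measure MW} (hγp : IsProbabilityMeasure γ)
    (hγ : IsRandomWave γ) {d k : ℕ} (w : Fin d → Fin k → ℂ)
    (Q : MvPolynomial (Fin d × Fin k) ℝ) :
    ∀ q : ℕ, 1 ≤ q →
      MemLp (fun F : Fin d → MW =>
        MvPolynomial.eval (fun q : Fin d × Fin k => F q.1 (w q.1 q.2)) Q) (q : ℝ≥0∞)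
        (Measure.pi fun _ : Fin d => γ) := by
  induction Q using MvPolynomial.induction_on with
  | C a =>
    intro q _
    simp only [MvPolynomial.eval_C]
    exact memLp_const a
  | add p r hp hr =>
    intro q hq
    simp only [map_add]
    exact (hp q hq).add (hr q hq)
  | mul_X p j hp =>
    intro q hq
    simp only [map_mul, MvPolynomial.eval_X]
    have h1 := hp (2 * q) (by omega)
    have h2 := memLp_jeval hg hγp hγ j.1 (w j.1 j.2) (q := 2 * q) (by omega)
    haveI : ENNReal.HolderTriple ((2 * q : ℕ) : ℝ≥0∞) ((2 * q : ℕ) : ℝ≥0∞) (q : ℝ≥0∞) := by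
      constructor
      push_cast
      rw [ENNReal.mul_inv (Or.inl two_ne_zero) (Or.inl ENNReal.ofNat_ne_top), ← add_mul,
        ENNReal.inv_two_add_inv_two, one_mul]
    exact h2.mul' h1

theorem jv (h : S_GM) : S_JV := by
  intro d Ω lam u γ hγp hγ ψ hc U A
  refine ⟨(∫ z in Ω, ψ z / z.im ^ 2) ^ 2, fun k w Q _ _ ε hε => ?_⟩
  have h1 := memLp_jpoly h hγp hγ w Q 2 (by norm_num)
  have h2 := variance_nonneg (fun F : Fin d → MW =>
    MvPolynomial.eval (fun q : Fin d × Fin k => F q.1 (w q.1 q.2)) Q)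
    (Measure.pi fun _ : Fin d => γ)
  rw [variance_eq_sub (by exact_mod_cast h1)] at h2
  simp only [Pi.pow_apply] at h2
  refine ((hc k w Q).pow 2).eventually_le_const ?_
  rw [mul_pow]
  have h3 : (∫ F : Fin d → MW,
      MvPolynomial.eval (fun q : Fin d × Fin k => F q.1 (w q.1 q.2)) Q
        ∂(Measure.pi fun _ : Fin d => γ)) ^ 2 ≤
      ∫ F : Fin d → MW, MvPolynomial.eval (fun q : Fin d × Fin k => F q.1 (w q.1 q.2)) Q ^ 2
        ∂(Measure.pi fun _ : Fin d => γ) := by linarith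
  have h4 := mul_le_mul_of_nonneg_right h3 (sq_nonneg (∫ z in Ω, ψ z / z.im ^ 2))
  linarith

end Pool.Agent.H287.JM
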